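import Pool.Agent.Helper84.BA.Pt

/-!
# Project BA, B16: the value `adV`, branches and bad nodes
-/

set_option autoImplicit false
set_option linter.unusedVariables false

namespace Pool.Agent.Helper94.BA

open Pool.Agent.Helper33.HM Filter

universe u

section

variable {B : Type u} [CompleteBooleanAlgebra B]

theorem h49_finV_mono {x y : ℕ → B} (h : x ≤ y) : finV y ≤ finV x :=
  iSup_mono fun m => iInf_mono fun n => iInf_mono fun _ => compl_le_compl (h n)

theorem h49_finV_almost (x H H' : ℕ → B) :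
    finV (x ⊓ H) ⊓ finV (H' ⊓ Hᶜ) ≤ finV (x ⊓ H') := by
  refine le_of_ae ?_
  filter_upwards [ae_finV (x ⊓ H), ae_finV (H' ⊓ Hᶜ), ae_finV (x ⊓ H')] with φ h1 h2 h3
  rw [Pt.inf, h1, h2, h3]
  rintro ⟨⟨m, hm⟩, ⟨m', hm'⟩⟩
  refine ⟨max m m', fun n hn hx => ?_⟩
  have a1 := hm n (le_of_max_le_left hn)
  have a2 := hm' n (le_of_max_le_right hn)
  rw [Pi.inf_apply, Pt.inf] at hx a1 a2
  rw [Pi.compl_apply, Pt.compl] at a2
  tauto

/-- N8a. -/
theorem adV_anti (T : List (Bool × ℕ) → B) (t : List (Bool × ℕ)) {H H' : ℕ → B} (h : H' ≤ H) :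
    adV T t H ≤ adV T t H' := by
  refine iInf_mono fun x => iInf_mono fun w => himp_le_himp_left ?_
  exact h49_finV_mono (inf_le_inf_left x h)

theorem h49_adV_le (T : List (Bool × ℕ) → B) (t : List (Bool × ℕ)) (H : ℕ → B) (x : ℕ → B)
    (w : ℕ → ℕ → B) : adV T t H ⊓ (brV x w t ⊓ brT T x w) ≤ finV (x ⊓ H) := by
  have h : adV T t H ≤ (brV x w t ⊓ brT T x w) ⇨ finV (x ⊓ H) :=
    (iInf_le _ x).trans (iInf_le _ w)
  rwa [le_himp_iff] at h

theorem adV_almost (T : List (Bool × ℕ) → B) (t : List (Bool × ℕ)) (H H' : ℕ → B) :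
    adV T t H ⊓ finV (H' ⊓ Hᶜ) ≤ adV T t H' := by
  refine le_iInf fun x => le_iInf fun w => ?_
  rw [le_himp_iff]
  calc adV T t H ⊓ finV (H' ⊓ Hᶜ) ⊓ (brV x w t ⊓ brT T x w)
      ≤ (adV T t H ⊓ (brV x w t ⊓ brT T x w)) ⊓ finV (H' ⊓ Hᶜ) :=
        le_inf (le_inf (inf_le_left.trans inf_le_left) inf_le_right)
          (inf_le_left.trans inf_le_right)
    _ ≤ finV (x ⊓ H) ⊓ finV (H' ⊓ Hᶜ) := inf_le_inf_right _ (h49_adV_le T t H x w)
    _ ≤ _ := h49_finV_almost x H H'

theorem adV_ext (T : List (Bool × ℕ) → B) (t : List (Bool × ℕ)) (H H' : ℕ → B) :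
    eqV H H' ⊓ adV T t H ≤ adV T t H' := by
  have h : eqV H H' ≤ finV (H' ⊓ Hᶜ) := by
    refine le_of_ae ?_
    filter_upwards [ae_eqV H H', ae_finV (H' ⊓ Hᶜ)] with φ h1 h2
    rw [h1, h2]
    intro h
    refine ⟨0, fun n _ hx => ?_⟩
    rw [Pi.inf_apply, Pt.inf, Pi.compl_apply, Pt.compl] at hx
    have := h n
    tauto
  calc eqV H H' ⊓ adV T t H ≤ adV T t H ⊓ finV (H' ⊓ Hᶜ) :=
        le_inf inf_le_right (inf_le_left.trans h)
    _ ≤ _ := adV_almost T t H H'

theorem brV_prefix (x : ℕ → B) (w : ℕ → ℕ → B) {t u : List (Bool × ℕ)} (h : t <+: u) :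
    brV x w u ≤ brV x w t := by
  refine le_iInf fun i => le_iInf fun hi => ?_
  have hu : i < u.length := hi.trans_le h.length_le
  have e : t[i] = u[i] := h.getElem hi
  rw [e]
  exact (iInf_le _ i).trans (iInf_le _ hu)

/-- N9a. A branch through `t` has an initial segment of every greater length. -/
theorem brV_extend (T : List (Bool × ℕ) → B) (x : ℕ → B) (w : ℕ → ℕ → B)
    (t : List (Bool × ℕ)) (k : ℕ) (hk : t.length ≤ k) :
    brV x w t ⊓ brT T x w ≤ ⨆ u : List (Bool × ℕ), ⨆ _ : t <+: u ∧ u.length = k, brV x w u := by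
  classical
  refine le_of_ae ?_
  filter_upwards [ae_brV x w, ae_brT T x w,
    ae_iSup fun u : List (Bool × ℕ) => ⨆ _ : t <+: u ∧ u.length = k, brV x w u] with φ h1 h2 h3
  rw [Pt.inf, h2, h3]
  rintro ⟨ht, hw, -⟩
  rw [h1] at ht
  choose g hg using hw
  let r : List (Bool × ℕ) := (List.range (k - t.length)).map fun j =>
    (decide (φ (x (t.length + j))), g (t.length + j))
  have hr : r.length = k - t.length := by simp [r]
  refine ⟨t ++ r, ?_⟩
  rw [Pt.iSup_prop]
  refine ⟨⟨List.prefix_append t r, by rw [List.length_append, hr]; omega⟩, ?_⟩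
  rw [h1]
  intro i hi
  by_cases hit : i < t.length
  · rw [List.getElem_append_left hit]
    exact ht i hit
  · have hti : t.length ≤ i := not_lt.1 hit
    rw [List.getElem_append_right hti]
    have e : t.length + (i - t.length) = i := by omega
    have e1 : r[i - t.length]'(by rw [List.length_append] at hi; omega) =
        (decide (φ (x i)), g i) := by
      simp only [r, List.getElem_map, List.getElem_range, e]
    rw [e1]
    exact ⟨by simp, hg i⟩

theorem brV_snoc (x : ℕ → B) (w : ℕ → ℕ → B) (u : List (Bool × ℕ)) (b : Bool) (m : ℕ) :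
    brV x w (u ++ [(b, m)]) =
      brV x w u ⊓ ((if b then x u.length else (x u.length)ᶜ) ⊓ w u.length m) := by
  refine eq_of_ae ?_
  filter_upwards [ae_brV x w] with φ h1
  rw [Pt.inf, Pt.inf, Pt.ite, h1, h1]
  constructor
  · intro h
    refine ⟨fun i hi => ?_, ?_⟩
    · have := h i (by rw [List.length_append]; omega)
      rw [List.getElem_append_left hi] at this
      exact this
    · have := h u.length (by rw [List.length_append]; simp)
      rw [List.getElem_append_right le_rfl] at this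
      simp only [Nat.sub_self, List.getElem_cons_zero] at this
      refine ⟨?_, this.2⟩
      cases b
      · simpa using this.1
      · simpa using this.1
  · rintro ⟨h, h2, h3⟩ i hi
    by_cases hit : i < u.length
    · rw [List.getElem_append_left hit]
      exact h i hit
    · have e : i = u.length := by
        rw [List.length_append, List.length_singleton] at hi
        omega
      subst e
      rw [List.getElem_append_right le_rfl]
      simp only [Nat.sub_self, List.getElem_cons_zero]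
      refine ⟨?_, h3⟩
      cases b
      · simpa using h2
      · simpa using h2

/-- The nodes with a branch whose intersection with `H` is infinite are bad. -/
theorem bad_of_branch (T : List (Bool × ℕ) → B) (H x : ℕ → B) (w : ℕ → ℕ → B)
    (t : List (Bool × ℕ)) :
    brV x w t ⊓ brT T x w ⊓ (finV (x ⊓ H))ᶜ ≤ (adV T t H)ᶜ := by
  rw [le_compl_iff_disjoint_right, disjoint_iff_inf_le]
  calc brV x w t ⊓ brT T x w ⊓ (finV (x ⊓ H))ᶜ ⊓ adV T t H
      ≤ (adV T t H ⊓ (brV x w t ⊓ brT T x w)) ⊓ (finV (x ⊓ H))ᶜ :=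
        le_inf (le_inf inf_le_right (inf_le_left.trans inf_le_left))
          (inf_le_left.trans inf_le_right)
    _ ≤ finV (x ⊓ H) ⊓ (finV (x ⊓ H))ᶜ := inf_le_inf_right _ (h49_adV_le T t H x w)
    _ = ⊥ := inf_compl_eq_bot

/-- A bad node and its initial segments belong to `T`. -/
theorem bad_le (T : List (Bool × ℕ) → B) (H : ℕ → B) {t u : List (Bool × ℕ)} (h : t <+: u) :
    (adV T u H)ᶜ ≤ T t := by
  rw [compl_le_iff_compl_le]
  refine le_iInf fun x => le_iInf fun w => ?_
  rw [le_himp_iff]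
  have h1 : brT T x w ≤ brV x w t ⇨ T t := inf_le_right.trans (iInf_le _ t)
  rw [le_himp_iff] at h1
  calc (T t)ᶜ ⊓ (brV x w u ⊓ brT T x w)
      ≤ (T t)ᶜ ⊓ (brT T x w ⊓ brV x w t) :=
        inf_le_inf_left _ (le_inf inf_le_right (inf_le_left.trans (brV_prefix x w h)))
    _ ≤ (T t)ᶜ ⊓ T t := inf_le_inf_left _ h1
    _ = ⊥ := by rw [inf_comm, inf_compl_eq_bot]
    _ ≤ _ := bot_le

end

end Pool.Agent.Helper94.BA
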