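import Pool.Agent.Helper49.BA.AdV

/-!
# Project BA, B18: the good set is small
-/

set_option autoImplicit false
set_option linter.unusedVariables false

namespace Pool.Agent.Helper94.BA

open Pool.Agent.Helper33.HM Filter

universe u

section

variable {B : Type u} [CompleteBooleanAlgebra B]

variable {K K' : Set (Finset ℕ → B)} {A : (ℕ → B) → B}

theorem h49_adV_goodSet (T : List (Bool × ℕ) → B) (H : ℕ → B) (t : List (Bool × ℕ)) :
    adV T t (goodSet T H t) = ⊤ := by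
  rw [eq_top_iff]
  refine le_iInf fun x => le_iInf fun w => ?_
  rw [le_himp_iff, top_inf_eq]
  have hgH : goodSet T H t ≤ H := fun k => inf_le_left
  refine le_of_ae ?_
  filter_upwards [ae_brV x w, ae_brT T x w, ae_finV (x ⊓ goodSet T H t),
    ae_forall fun k : ℕ => ae_iSup fun u : List (Bool × ℕ) =>
      ⨆ _ : t <+: u ∧ u.length = k, brV x w u] with φ h1 h2 h3 h4
  intro hφ
  by_contra hcon
  have hT : φ (brT T x w) := by
    rw [Pt.inf] at hφ
    exact hφ.2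
  have hw := (h2.1 hT).1
  rw [h3] at hcon
  push Not at hcon
  obtain ⟨k, hk, hxk⟩ := hcon t.length
  rw [Pi.inf_apply, Pt.inf] at hxk
  have h5 := φ.mono (brV_extend T x w t k hk) hφ
  rw [h4] at h5
  obtain ⟨u, hu⟩ := h5
  rw [Pt.iSup_prop] at hu
  obtain ⟨⟨htu, huk⟩, hu⟩ := hu
  obtain ⟨m, hm⟩ := hw k
  have h6 : φ (brV x w (u ++ [(true, m)])) := by
    rw [brV_snoc, Pt.inf, Pt.inf, huk]
    exact ⟨hu, by simpa using hxk.1, hm⟩
  have h7 : φ (finV (x ⊓ H))ᶜ := by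
    rw [Pt.compl]
    intro h
    have := φ.mono (h49_finV_mono (inf_le_inf_left x hgH)) h
    rw [h3] at this
    obtain ⟨m, hm⟩ := this
    obtain ⟨k', hk', hx'⟩ := hcon m
    exact hm k' hk' hx'
  have h8 : φ (adV T (u ++ [(true, m)]) H)ᶜ := by
    refine φ.mono (bad_of_branch T H x w (u ++ [(true, m)])) ?_
    rw [Pt.inf, Pt.inf]
    exact ⟨⟨h6, hT⟩, h7⟩
  rw [Pt.compl] at h8
  refine h8 (φ.mono ?_ hxk.2)
  exact inf_le_right.trans ((iInf_le _ u).trans ((iInf_le _ m).trans (iInf_le _ ⟨htu, huk⟩)))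

/-- N9. (F4) -/
theorem goodSet_small {T : List (Bool × ℕ) → B} {H : ℕ → B}
    (hD : ∀ (t : List (Bool × ℕ)) (H' : ℕ → B), H' ≤ H →
      JP K A H' ⊓ adV T t H' ≤ adV T t H) (t : List (Bool × ℕ)) :
    (adV T t H)ᶜ ⊓ JP K A (goodSet T H t) = ⊥ := by
  have h := hD t (goodSet T H t) (fun k => inf_le_left)
  rw [h49_adV_goodSet, inf_top_eq] at h
  rw [← le_bot_iff]
  calc (adV T t H)ᶜ ⊓ JP K A (goodSet T H t) ≤ (adV T t H)ᶜ ⊓ adV T t H := inf_le_inf_left _ h
    _ = ⊥ := by rw [inf_comm, inf_compl_eq_bot]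

end

end Pool.Agent.Helper94.BA
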